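import Pool.Agent.Lib.MP_f017c9_lc_U.MainA

/-!
# Random k-SAT at a constant fraction of the threshold: decoders of algebraic features, stable
features and arbitrary bits which read few clauses fail
-/

namespace Pool.Agent.Results.MP_f017c9_lc.AdaptiveDecoders

open Pool.Agent.KS

theorem result (ε : ℝ) (hε : 0 < ε) (hε1 : ε ≤ 1) :
    ∃ c : ℝ, 0 < c ∧ ∀ g : ℕ, ∃ k₀ : ℕ, ∀ k ≥ k₀, ∃ (N : ℕ) (C c' : ℝ), 0 < C ∧ 0 < c' ∧
      ∃ n₀ : ℕ, ∀ n ≥ n₀, ∀ M : ℕ, ε * 2 ^ k * n ≤ M →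
      ∀ (R G : Type) [Fintype R] [Nonempty R] [AddCommGroup G] [Fintype G],
        Fintype.card G ≤ g → ∀ D Q₁ Q₂ Q₃ : ℕ, (D : ℝ) ≤ c * k →
        (Q₁ : ℝ) ≤ 2 ^ (c * k) * n → (Q₂ : ℝ) ≤ 2 ^ (c * k) * n → (Q₃ : ℝ) ≤ ε * n / 2 →
        ∀ (A : R → Formula n k M → Asg n) (z : R → Formula n k M → Fin Q₁ → G)
          (w : R → Formula n k M → Fin Q₂ → Bool) (y : R → Formula n k M → Fin Q₃ → Bool),
          (∀ a, SumFeature G D fun r F => z r F a) →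
          ReadsFew (2 ^ (-((k : ℝ) / 20)) * M) A z w y →
            successProb A ^ N ≤ C * (bitSensitivity w / n ^ 2) + Real.exp (-c' * n) :=
  mainA ε hε hε1

end Pool.Agent.Results.MP_f017c9_lc.AdaptiveDecoders
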