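import Pool.Agent.Lib.MP_f017c9_lc_BT.Main

/-!
# Random k-SAT at a constant fraction of the threshold: backtracking search with clause learning

Every backtracking search whose refutations have at most `exp (c n)` lines and which reaches a
satisfying assignment has made at most `η n` corrections on its way; hence the search fails if its
first values are random, or if they are given by an algorithm which is stable in the signs.
-/

namespace Pool.Agent.Results.MP_f017c9_lc.BacktrackingSearch

open Finset Pool.Agent.KS

open Classical in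
theorem result (ε q : ℝ) (hε : 0 < ε) (hε1 : ε ≤ 1) (hq : 0 < q) (k : ℕ)
    (hk : 10 ^ 8 * Real.log (16 / ε) ^ 2 ≤ ε ^ 2 * k) :
    ∃ n₀ : ℕ, ∀ n ≥ n₀, ∀ M : ℕ,
      (#{F : Formula n k M | ∃ rule σ m, FindsAt F (budget ε n) rule σ m ∧
        ε / (64 * Real.log (16 / ε)) * n < (m : ℝ)} : ℝ) ≤
          Real.exp (-(3 / 10 * n)) * Fintype.card (Formula n k M) ∧
      (ε * 2 ^ k * n ≤ M →
        (∀ sel : Formula n k M → (PA n → Bool) → PA n → Fin n, (∀ F, Causal (sel F)) →
          (#{y : Formula n k M × (PA n → Bool) |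
            Finds y.1 (budget ε n) (fun ρ => (sel y.1 y.2 ρ, y.2 ρ))} : ℝ) ≤
              Real.exp (-(ε * n / 4)) * Fintype.card (Formula n k M × (PA n → Bool))) ∧
        ∀ (R : Type) [Fintype R] [Nonempty R] (A : R → Formula n k M → Asg n),
          q ≤ (#{x : R × Formula n k M | ∃ sel : PA n → Fin n,
            Finds x.2 (budget ε n) (fun ρ => (sel ρ, A x.1 x.2 (sel ρ)))} : ℝ) /
              Fintype.card (R × Formula n k M) →
            ε ^ 4 * q ^ 3 * n ^ 2 / 10 ^ 7 ≤ sensitivity A) :=
  bt_main ε q hε hε1 hq k hk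

end Pool.Agent.Results.MP_f017c9_lc.BacktrackingSearch
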