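import Pool.Agent.Lib.MP_f017c9_lc_MY.Main

/-!
# Random k-SAT at a constant fraction of the threshold: myopic backtracking search

Backtracking search with clause learning whose branching rule sees, at every node, only the
variables of all clauses, the signs at all occurrences of the assigned variables and of a linear
number of further variables, and a linear number of complete clauses.
-/

namespace Pool.Agent.Results.MP_f017c9_lc.MyopicSearch

open Finset Pool.Agent.KS

open Classical in
theorem result (ε : ℝ) (hε : 0 < ε) (hε1 : ε ≤ 1) (k : ℕ)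
    (hk : 10 ^ 8 * Real.log (16 / ε) ^ 2 ≤ ε ^ 2 * k) :
    ∃ n₀ : ℕ, ∀ n ≥ n₀, ∀ M : ℕ, ε * 2 ^ k * n ≤ M →
      ∀ rule : Formula n k M → PA n → Lit n,
        Myopic rule (ε * n / 30) (Real.exp (ε * k / 200) * n) →
          (#{F : Formula n k M | Finds F (budget ε n) (rule F)} : ℝ) ≤
            Real.exp (-(ε * n / 8)) * Fintype.card (Formula n k M) :=
  my_main ε hε hε1 k hk

end Pool.Agent.Results.MP_f017c9_lc.MyopicSearch
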