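import Pool.Agent.Lib.MP_f017c9_lc.Main

/-!
# Random k-SAT at a constant fraction of the threshold: successful algorithms are sensitive
-/

namespace Pool.Agent.Results.MP_f017c9_lc.Sensitivity

open Pool.Agent.KS

theorem result (ε q : ℝ) (hε : 0 < ε) (hε1 : ε ≤ 1) (hq : 0 < q) :
    ∃ n₀ : ℕ, ∀ n ≥ n₀, ∀ k ≤ n, 16 * Real.log (16 / ε) ^ 2 ≤ ε * k →
      ∀ M : ℕ, ε * 2 ^ k * n ≤ M → ∀ (R : Type) [Fintype R] [Nonempty R]
        (A : R → Formula n k M → Asg n), q ≤ successProb A →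
          ε ^ 4 * q ^ 3 * n ^ 2 / 10 ^ 5 ≤ sensitivity A :=
  main ε q hε hε1 hq

end Pool.Agent.Results.MP_f017c9_lc.Sensitivity
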